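import Pool.Agent.V11212.XI.Hed

set_option autoImplicit false

namespace Pool.Agent.Results.MP_c446d6_co.FormulaFails

open Pool.Agent.V11212.XI Pool.Agent.Results.MP_19f4d1_co.CyclicOrderFour

/-- For every nice group `G` whose order is not a prime (for instance `ℤ/4`) there are finite free
`G`-simplicial complexes `X`, `Y` with `Xind (F(X) × F(Y)) < min (Xind F(X)) (Xind F(Y))`. -/
theorem result :
    (∀ (G : Type) [Group G] [Fintype G], IsNice G → ¬ (Nat.card G).Prime →
      ∃ X Y : GCx G, (∀ (g : G) (s : X.Face), g • s = s → g = 1) ∧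
        (∀ (g : G) (s : Y.Face), g • s = s → g = 1) ∧
        ∃ a b c, IsLeast {k | CrossLe G X.Face k} a ∧ IsLeast {k | CrossLe G Y.Face k} b ∧
          IsLeast {k | CrossLe G (X.Face × Y.Face) k} c ∧ c < min a b) ∧
      IsNice (Multiplicative (ZMod 4)) ∧ ¬ (Nat.card (Multiplicative (ZMod 4))).Prime := by
  have hcard : Nat.card (Multiplicative (ZMod 4)) = 4 := by
    rw [Nat.card_eq_fintype_card]; rfl
  refine ⟨fun G _ _ hG hn => hed hG hn, Or.inl ⟨2, 2, Nat.prime_two, by norm_num, ?_, ?_⟩, ?_⟩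
  · infer_instance
  · rw [hcard]; norm_num
  · rw [hcard]; norm_num

end Pool.Agent.Results.MP_c446d6_co.FormulaFails
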